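import Mathlib

/-!
# Hom-Ext quivers of exceptional collections need not have monomial relations

Conventions.

* For a quiver `V` and a field `k`, `Rep k V` is the category of representations of `V` over `k`
  (functors from the path category `Paths V` to `k`-vector spaces), i.e. the category of modules
  over the path algebra.  `Ext` is Mathlib's Yoneda/derived `Ext` of this abelian category, i.e.
  `Ext A B n = Hom_D (A, B[n])` in the derived category.
* `IsExceptional`, `IsExceptionalSequence`, `IsExceptionalCollection` are the usual notions.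
* For a family `X` of objects, `ArrowChoice k X` is a choice of the arrows of the Hom-Ext quiver:
  sets of homomorphisms (respectively of extensions) which form bases modulo those that factor
  through the radical.
* `ArrowChoice.relations` is the ideal of relations `R`, as a family of subspaces
  `e_i R e_j` of the spaces `e_i (k Q^χ) e_j` with basis the paths from `i` to `j`.
-/

open CategoryTheory CategoryTheory.Limits CategoryTheory.Abelian

universe u v w t

namespace Pool.Agent.Results.MP_2a1499_al.SquareCounterexample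

/-! ### Representations of quivers and exceptional collections -/

section Quivers

/-- Representations over `k` of the quiver `V` (modules over the path algebra of `V`):
functors from the category of paths of `V` to `k`-vector spaces. -/
abbrev Rep (k : Type u) [Field k] (V : Type) [Quiver.{0} V] : Type (u + 1) :=
  Paths V ⥤ ModuleCat.{u} k

/-- A quiver is finite if it has finitely many vertices and finitely many arrows. -/
def IsFiniteQuiver (V : Type) [Quiver.{0} V] : Prop :=
  Finite V ∧ ∀ v w : V, Finite (v ⟶ w)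

/-- A quiver is acyclic if every closed path is trivial. -/
def IsAcyclicQuiver (V : Type) [Quiver.{0} V] : Prop :=
  ∀ (v : V) (p : Quiver.Path v v), p = Quiver.Path.nil

variable (k : Type u) [Field k] (V : Type) [Quiver.{0} V]

/-- All `Ext` groups exist (for a suitable universe); this is a `Prop`-valued existence
statement about the derived category. -/
instance instHasExtRep : HasExt.{u + 1} (Rep k V) := HasExt.standard _

variable {k V}

/-- A module `E` is exceptional if it is finite dimensional, indecomposable and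
`Ext¹(E,E) = 0`. -/
structure IsExceptional (E : Rep k V) : Prop where
  /-- `E` is finite dimensional -/
  finiteDim : ∀ v : V, FiniteDimensional k (E.obj v)
  /-- `E` is indecomposable -/
  indecomposable : Indecomposable E
  /-- `Ext¹(E,E) = 0` -/
  ext_self : ∀ e : Ext E E 1, e = 0

/-- `(E_0, …, E_{m-1})` is an exceptional sequence: all members are exceptional and
`Hom(E_i, E_j) = 0 = Ext¹(E_i, E_j)` whenever `j < i`. -/
structure IsExceptionalSequence {m : ℕ} (E : Fin m → Rep k V) : Prop where
  /-- each member is exceptional -/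
  exceptional : ∀ i, IsExceptional (E i)
  /-- `Hom(E_i, E_j) = 0` for `j < i` -/
  hom_eq_zero : ∀ i j : Fin m, j < i → ∀ f : E i ⟶ E j, f = 0
  /-- `Ext¹(E_i, E_j) = 0` for `j < i` -/
  ext_eq_zero : ∀ i j : Fin m, j < i → ∀ e : Ext (E i) (E j) 1, e = 0

/-- A finite family of modules is an exceptional collection if it can be ordered to be an
exceptional sequence. -/
def IsExceptionalCollection {ι : Type} (X : ι → Rep k V) : Prop :=
  ∃ (m : ℕ) (σ : Fin m ≃ ι), IsExceptionalSequence (fun a => X (σ a))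

end Quivers

/-! ### The Hom-Ext quiver with relations -/

section HomExt

variable (k : Type u) [Field k] {C : Type v} [Category.{w} C] [Abelian C] [Linear k C]
  [HasExt.{t} C] {ι : Type} (X : ι → C)

/-- The radical morphisms `X_i ⟶ X_j`: for indecomposable objects with local endomorphism
rings the radical is (spanned by) the set of non-isomorphisms. -/
def radHom (i j : ι) : Submodule k (X i ⟶ X j) :=
  Submodule.span k {f | ¬ IsIso f}

/-- The morphisms `X_i ⟶ X_j` which are sums of composites of two radical morphisms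
`X_i ⟶ X_l ⟶ X_j` between members of the collection. -/
def radSqHom (i j : ι) : Submodule k (X i ⟶ X j) :=
  Submodule.span k {h | ∃ (l : ι) (f : X i ⟶ X l) (g : X l ⟶ X j),
    ¬ IsIso f ∧ ¬ IsIso g ∧ h = f ≫ g}

/-- The extensions in `Ext¹(X_i, X_j)` which are sums of composites of a radical morphism with
an extension, or of an extension with a radical morphism, through a member of the collection. -/
noncomputable def radSqExt (i j : ι) : Submodule k (Ext (X i) (X j) 1) :=
  Submodule.span k
    ({h | ∃ (l : ι) (f : X i ⟶ X l) (e : Ext (X l) (X j) 1),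
        ¬ IsIso f ∧ h = (Ext.mk₀ f).comp e (zero_add 1)} ∪
      {h | ∃ (l : ι) (e : Ext (X i) (X l) 1) (g : X l ⟶ X j),
        ¬ IsIso g ∧ h = e.comp (Ext.mk₀ g) (add_zero 1)})

/-- A choice of the arrows of the Hom-Ext quiver of the family `X`: for all `i, j` a set
`homArrows i j` of radical morphisms `X_i ⟶ X_j` and a set `extArrows i j` of extensions in
`Ext¹(X_i, X_j)` whose classes form bases of `rad/rad²`, i.e. bases of the radical morphisms,
respectively of the extensions, modulo those factoring (through members of the family) into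
two radical ones. -/
structure ArrowChoice where
  /-- arrows `i → j` of Hom type -/
  homArrows : ∀ i j : ι, Set (X i ⟶ X j)
  /-- arrows `i → j` of Ext type -/
  extArrows : ∀ i j : ι, Set (Ext (X i) (X j) 1)
  /-- Hom arrows are radical morphisms -/
  homArrows_sub : ∀ i j, homArrows i j ⊆ (radHom k X i j : Set (X i ⟶ X j))
  /-- Hom arrows are linearly independent modulo the square of the radical -/
  homArrows_indep : ∀ i j,
    LinearIndependent k (fun a : homArrows i j => (radSqHom k X i j).mkQ a.1)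
  /-- Hom arrows span modulo the square of the radical -/
  homArrows_span : ∀ i j, radHom k X i j ≤ Submodule.span k (homArrows i j) ⊔ radSqHom k X i j
  /-- Ext arrows are linearly independent modulo the square of the radical -/
  extArrows_indep : ∀ i j,
    LinearIndependent k (fun a : extArrows i j => (radSqExt k X i j).mkQ a.1)
  /-- Ext arrows span modulo the square of the radical -/
  extArrows_span : ∀ i j, ⊤ ≤ Submodule.span k (extArrows i j) ⊔ radSqExt k X i j

namespace ArrowChoice

variable {k X}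

/-- The vertices of the Hom-Ext quiver `Q^χ` are the members of the collection. -/
def Vertex (_A : ArrowChoice k X) : Type := ι

/-- The arrows of the Hom-Ext quiver `Q^χ`: Hom arrows and Ext arrows. -/
instance instQuiverVertex (A : ArrowChoice k X) : Quiver A.Vertex :=
  ⟨fun i j => (A.homArrows i j) ⊕ (A.extArrows i j)⟩

variable (A : ArrowChoice k X)

/-- The value of a path of the Hom-Ext quiver from `i` to `j` in
`Hom(X_i, X_j) × Ext¹(X_i, X_j) = Hom_D(X_i, X_j ⊕ ΣX_j)`.  The first component is the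
composite if all arrows are Hom arrows (and `0` otherwise); the second is the composite if
exactly one arrow is an Ext arrow (and `0` otherwise). -/
noncomputable def value {i : A.Vertex} : ∀ {j : A.Vertex}, Quiver.Path i j →
    (X i ⟶ X j) × Ext (X i) (X j) 1
  | _, .nil => (𝟙 _, 0)
  | _, .cons p (Sum.inl a) => ((value p).1 ≫ a.1, (value p).2.comp (Ext.mk₀ a.1) (add_zero 1))
  | _, .cons p (Sum.inr e) => (0, (Ext.mk₀ (value p).1).comp e.1 (zero_add 1))

/-- The two-sided ideal of the path algebra of the Hom-Ext quiver generated by a family `S` of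
sets of linear combinations of parallel paths; it is given by its components: for vertices
`i, j` a subspace of the space `Path i j →₀ k` with basis the paths from `i` to `j`. -/
noncomputable def idealSpan (S : ∀ i j : A.Vertex, Set (Quiver.Path i j →₀ k)) (i j : A.Vertex) :
    Submodule k (Quiver.Path i j →₀ k) :=
  Submodule.span k {x | ∃ (i' j' : A.Vertex) (p : Quiver.Path i i') (q : Quiver.Path j' j),
    ∃ ρ ∈ S i' j', x = Finsupp.mapDomain (fun r => (p.comp r).comp q) ρ}

/-- The ideal of relations `R` of the Hom-Ext quiver: it is generated by the linear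
combinations of parallel paths whose value is zero. -/
noncomputable def relations : ∀ i j : A.Vertex, Submodule k (Quiver.Path i j →₀ k) :=
  A.idealSpan (fun i j => {ρ | Finsupp.linearCombination k (fun p : Quiver.Path i j => A.value p) ρ = 0})

/-- The ideal of relations is generated by monomial relations (paths of length at least `2`). -/
def RelationsMonomial : Prop :=
  ∃ S : ∀ i j : A.Vertex, Set (Quiver.Path i j),
    (∀ i j, ∀ p ∈ S i j, 2 ≤ p.length) ∧
    A.relations = A.idealSpan (fun i j => (fun p => Finsupp.single p 1) '' (S i j))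

/-! ### Basic properties -/

/-- Composition in `Hom × Ext¹` (with `Ext²` discarded). -/
noncomputable def mulHE {A B D : C} (x : (A ⟶ B) × Ext A B 1) (y : (B ⟶ D) × Ext B D 1) :
    (A ⟶ D) × Ext A D 1 :=
  (x.1 ≫ y.1, (Ext.mk₀ x.1).comp y.2 (zero_add 1) + x.2.comp (Ext.mk₀ y.1) (add_zero 1))

theorem value_comp {i j l : A.Vertex} (p : Quiver.Path i j) (q : Quiver.Path j l) :
    A.value (p.comp q) = mulHE (A.value p) (A.value q) := by
  induction q with
  | nil => simp [mulHE, value]
  | cons q a ih =>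
    rcases a with a | e
    · simp only [Quiver.Path.comp_cons, value, ih, mulHE]
      simp
    · simp only [Quiver.Path.comp_cons, value, ih, mulHE]
      simp

/-- Multiplication on both sides in `Hom × Ext¹` as a linear map. -/
noncomputable def mulLin (k : Type u) [Field k] [Linear k C] {A B D E : C} (x : (A ⟶ B) × Ext A B 1) (z : (D ⟶ E) × Ext D E 1) :
    ((B ⟶ D) × Ext B D 1) →ₗ[k] ((A ⟶ E) × Ext A E 1) where
  toFun y := mulHE (mulHE x y) z
  map_add' y y' := by
    ext
    · simp [mulHE]
    · simp [mulHE, Ext.mk₀_add]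
      abel
  map_smul' c y := by
    ext
    · simp [mulHE]
    · simp [mulHE, Ext.mk₀_smul]

/-- The value of a linear combination of paths. -/
noncomputable def lc (i j : A.Vertex) :
    (Quiver.Path i j →₀ k) →ₗ[k] ((X i ⟶ X j) × Ext (X i) (X j) 1) :=
  Finsupp.linearCombination k (fun p : Quiver.Path i j => A.value p)

theorem lc_mapDomain {i i' j' j : A.Vertex} (p : Quiver.Path i i') (q : Quiver.Path j' j)
    (ρ : Quiver.Path i' j' →₀ k) :
    A.lc i j (Finsupp.mapDomain (fun r => (p.comp r).comp q) ρ) =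
      mulLin k (A.value p) (A.value q) (A.lc i' j' ρ) := by
  unfold lc
  rw [Finsupp.linearCombination_mapDomain, Finsupp.linearCombination_apply,
    Finsupp.linearCombination_apply, Finsupp.sum, Finsupp.sum, map_sum]
  refine Finset.sum_congr rfl fun r _ => ?_
  rw [map_smul]
  congr 1
  simp only [Function.comp, value_comp]
  rfl

theorem lc_eq_zero_of_mem_relations {i j : A.Vertex} {x : Quiver.Path i j →₀ k}
    (hx : x ∈ A.relations i j) : A.lc i j x = 0 := by
  have : A.relations i j ≤ LinearMap.ker (A.lc i j) := by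
    unfold relations idealSpan
    rw [Submodule.span_le]
    rintro _ ⟨i', j', p, q, ρ, hρ, rfl⟩
    simp only [SetLike.mem_coe, LinearMap.mem_ker]
    rw [lc_mapDomain]
    have : A.lc i' j' ρ = 0 := hρ
    rw [this, map_zero]
  exact this hx

theorem mem_relations_of_lc_eq_zero {i j : A.Vertex} {x : Quiver.Path i j →₀ k}
    (hx : A.lc i j x = 0) : x ∈ A.relations i j := by
  unfold relations idealSpan
  refine Submodule.subset_span ⟨i, j, Quiver.Path.nil, Quiver.Path.nil, x, hx, ?_⟩
  have : (fun r : Quiver.Path i j => (Quiver.Path.nil.comp r).comp Quiver.Path.nil) = id := by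
    funext r; simp
  rw [this, Finsupp.mapDomain_id]

/-- If the relations are generated by monomials then with a linear combination of paths
each path occurring in it is a relation. -/
theorem value_eq_zero_of_monomial (hA : A.RelationsMonomial) {i j : A.Vertex}
    {x : Quiver.Path i j →₀ k} (hx : A.lc i j x = 0) {p : Quiver.Path i j} (hp : x p ≠ 0) :
    A.value p = 0 := by
  obtain ⟨S, -, hS⟩ := hA
  let T : Set (Quiver.Path i j) := {r | ∃ (i' j' : A.Vertex) (p : Quiver.Path i i')
    (q : Quiver.Path j' j), ∃ s ∈ S i' j', r = (p.comp s).comp q}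
  have h1 : A.relations i j = Submodule.span k ((fun p => Finsupp.single p (1 : k)) '' T) := by
    rw [hS]
    unfold idealSpan
    congr 1
    ext y
    constructor
    · rintro ⟨i', j', p, q, ρ, ⟨s, hs, rfl⟩, rfl⟩
      refine ⟨(p.comp s).comp q, ⟨i', j', p, q, s, hs, rfl⟩, ?_⟩
      simp [Finsupp.mapDomain_single]
    · rintro ⟨r, ⟨i', j', p, q, s, hs, rfl⟩, rfl⟩
      refine ⟨i', j', p, q, Finsupp.single s 1, ⟨s, hs, rfl⟩, ?_⟩
      simp [Finsupp.mapDomain_single]
  have h2 : x ∈ A.relations i j := A.mem_relations_of_lc_eq_zero hx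
  rw [h1, ← Finsupp.supported_eq_span_single, Finsupp.mem_supported] at h2
  have hpT : p ∈ T := h2 (by simpa using hp)
  have h3 : Finsupp.single p (1 : k) ∈ A.relations i j := by
    rw [h1]
    exact Submodule.subset_span ⟨p, hpT, rfl⟩
  have h4 := A.lc_eq_zero_of_mem_relations h3
  simpa [lc] using h4

theorem exists_basis_mod {k : Type u} [Field k] {M : Type v} [AddCommGroup M] [Module k M]
    (P Q : Submodule k M) : ∃ B : Set M, B ⊆ (P : Set M) ∧
      LinearIndependent k (fun a : B => Q.mkQ a.1) ∧ P ≤ Submodule.span k B ⊔ Q := by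
  classical
  obtain ⟨b, hbs, hspan, hind⟩ := exists_linearIndependent k (Q.mkQ '' (P : Set M))
  choose! l hlP hl using fun c (hc : c ∈ b) => hbs hc
  refine ⟨l '' b, ?_, ?_, ?_⟩
  · rintro _ ⟨c, hc, rfl⟩
    exact hlP c hc
  · have hinj : Function.Injective
        (fun a : (l '' b : Set M) => (⟨Q.mkQ a.1, by
          obtain ⟨_, c, hc, rfl⟩ := a; rw [hl c hc]; exact hc⟩ : b)) := by
      rintro ⟨_, c, hc, rfl⟩ ⟨_, c', hc', rfl⟩ h
      simp only [Subtype.mk.injEq, hl c hc, hl c' hc'] at h
      subst h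
      rfl
    exact hind.comp _ hinj
  · intro x hx
    have h1 : Q.mkQ x ∈ Submodule.span k b := by
      rw [hspan]; exact Submodule.subset_span ⟨x, hx, rfl⟩
    have h2 : (b : Set (M ⧸ Q)) = Q.mkQ '' (l '' b) := by
      ext c
      constructor
      · intro hc; exact ⟨l c, ⟨c, hc, rfl⟩, hl c hc⟩
      · rintro ⟨_, ⟨c', hc', rfl⟩, rfl⟩
        rw [hl c' hc']; exact hc'
    rw [h2, ← Submodule.map_span] at h1
    obtain ⟨y, hy, hxy⟩ := h1
    have h3 : x - y ∈ Q := by
      rw [← Submodule.Quotient.mk_eq_zero, Submodule.Quotient.mk_sub, sub_eq_zero]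
      exact hxy.symm
    have : x = y + (x - y) := by abel
    rw [this]
    exact Submodule.add_mem_sup hy h3

/-- A choice of arrows always exists. -/
theorem nonempty_arrowChoice (k : Type u) [Field k] {C : Type v} [Category.{w} C] [Abelian C]
    [Linear k C] [HasExt.{t} C] {ι : Type} (X : ι → C) : Nonempty (ArrowChoice k X) := by
  classical
  choose H hH1 hH2 hH3 using fun i j : ι =>
    exists_basis_mod (radHom k X i j) (radSqHom k X i j)
  choose E hE1 hE2 hE3 using fun i j : ι =>
    exists_basis_mod (⊤ : Submodule k (Ext (X i) (X j) 1)) (radSqExt k X i j)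
  exact ⟨{
    homArrows := H
    extArrows := E
    homArrows_sub := hH1
    homArrows_indep := hH2
    homArrows_span := hH3
    extArrows_indep := hE2
    extArrows_span := hE3 }⟩

end ArrowChoice

end HomExt

/-! ### The quiver of type `D₄` : `s → m`, `m → t₁`, `m → t₂` -/

/-- The vertices of the quiver. -/
inductive D4 : Type
  | s | m | t₁ | t₂
  deriving DecidableEq

/-- The arrows of the quiver. -/
inductive D4Arrow : D4 → D4 → Type
  | a : D4Arrow D4.s D4.m
  | b : D4Arrow D4.m D4.t₁
  | c : D4Arrow D4.m D4.t₂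

instance instQuiverD4 : Quiver.{0} D4 := ⟨D4Arrow⟩

namespace D4

/-- The order of the vertices. -/
def le : D4 → D4 → Bool
  | s, _ => true
  | m, m => true
  | m, t₁ => true
  | m, t₂ => true
  | t₁, t₁ => true
  | t₂, t₂ => true
  | _, _ => false

theorem le_refl' (v : D4) : le v v = true := by cases v <;> rfl

theorem le_of_arrow {u v w : D4} (h : le u v = true) (e : D4Arrow v w) : le u w = true := by
  cases e <;> cases u <;> simp_all [le]

theorem not_le_of_arrow {v w : D4} (e : D4Arrow v w) : le w v = false := by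
  cases e <;> rfl

theorem arrow_src {v v' w : D4} (e : D4Arrow v w) (e' : D4Arrow v' w) : v = v' := by
  cases e <;> cases e' <;> rfl

theorem arrow_unique {v w : D4} (e e' : D4Arrow v w) : e = e' := by
  cases e <;> cases e' <;> rfl

theorem le_of_path {v w : D4} (p : Quiver.Path v w) : le v w = true := by
  induction p with
  | nil => exact le_refl' v
  | cons p e ih => exact le_of_arrow ih e

theorem path_subsingleton : ∀ {v w : D4} (p q : Quiver.Path v w), p = q
  | _, _, .nil, .nil => rfl
  | _, _, .nil, .cons q e => by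
    have := le_of_path q
    rw [not_le_of_arrow e] at this
    cases this
  | _, _, .cons p e, .nil => by
    have := le_of_path p
    rw [not_le_of_arrow e] at this
    cases this
  | _, _, .cons (b := b) p e, .cons (b := b') q f => by
    obtain rfl : b = b' := arrow_src e f
    obtain rfl : e = f := arrow_unique e f
    rw [path_subsingleton p q]

theorem isAcyclic : IsAcyclicQuiver D4 := fun _ _ => path_subsingleton _ _

theorem isFinite : IsFiniteQuiver D4 := by
  refine ⟨?_, ?_⟩
  · exact Finite.of_injective (fun v : D4 => (match v with | s => 0 | m => 1 | t₁ => 2 | t₂ => 3 : Fin 4))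
      (by intro v w; cases v <;> cases w <;> simp)
  · intro v w
    have : Subsingleton (v ⟶ w) := ⟨fun e f => arrow_unique e f⟩
    infer_instance

end D4

/-- The path category of the quiver. -/
abbrev PD : Type := Paths D4

namespace PD

/-- the vertex `s` -/
abbrev s : PD := D4.s
/-- the vertex `m` -/
abbrev m : PD := D4.m
/-- the vertex `t₁` -/
abbrev t₁ : PD := D4.t₁
/-- the vertex `t₂` -/
abbrev t₂ : PD := D4.t₂

/-- the arrow `s → m` -/
def a : s ⟶ m := Quiver.Path.nil.cons D4Arrow.a
/-- the arrow `m → t₁` -/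
def b : m ⟶ t₁ := Quiver.Path.nil.cons D4Arrow.b
/-- the arrow `m → t₂` -/
def c : m ⟶ t₂ := Quiver.Path.nil.cons D4Arrow.c

instance instSubsingletonHom (v w : PD) : Subsingleton (v ⟶ w) :=
  ⟨fun p q => D4.path_subsingleton p q⟩

theorem isEmpty_hom {v w : PD} (h : D4.le v w = false) : IsEmpty (v ⟶ w) :=
  ⟨fun p => by have := D4.le_of_path p; rw [h] at this; cases this⟩

/-- the path `s → v` -/
def path : ∀ v : PD, s ⟶ v
  | D4.s => 𝟙 s
  | D4.m => a
  | D4.t₁ => a ≫ b
  | D4.t₂ => a ≫ c

end PD

/-! ### Coinduced (injective) functors -/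

section Coind

variable (k : Type u) [Field k] {P : Type} [Category.{0} P]

/-- The functor `v ↦ ∏_τ (Hom(v, t τ) → k)`; it is injective. -/
def coind {T : Type} (t : T → P) : P ⥤ ModuleCat.{u} k where
  obj v := ModuleCat.of k ((τ : T) → (v ⟶ t τ) → k)
  map {v w} p := ModuleCat.ofHom
    { toFun := fun x τ q => x τ (p ≫ q)
      map_add' := fun _ _ => rfl
      map_smul' := fun _ _ => rfl }
  map_id v := by
    ext x τ q
    exact congrArg (x τ) (Category.id_comp q)
  map_comp p p' := by
    ext x τ q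
    exact congrArg (x τ) (Category.assoc _ _ _)

/-- Evaluation. -/
def coindEv {T : Type} (t : T → P) {v : P} (τ : T) (q : v ⟶ t τ) :
    (coind k t).obj v →ₗ[k] k where
  toFun x := (show (τ : T) → (v ⟶ t τ) → k from x) τ q
  map_add' _ _ := rfl
  map_smul' _ _ := rfl

variable {k}

theorem coind_ext {T : Type} {t : T → P} {v : P} {x y : (coind k t).obj v}
    (h : ∀ τ (q : v ⟶ t τ), coindEv k t τ q x = coindEv k t τ q y) : x = y := by
  change (show (τ : T) → (v ⟶ t τ) → k from x) = (show (τ : T) → (v ⟶ t τ) → k from y)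
  funext τ q
  exact h τ q

theorem coindEv_map {T : Type} {t : T → P} {v w : P} (p : v ⟶ w) (τ : T) (q : w ⟶ t τ)
    (x : (coind k t).obj v) :
    coindEv k t τ q (((coind k t).map p).hom x) = coindEv k t τ (p ≫ q) x := rfl

/-- Morphisms into a coinduced functor. -/
def toCoind {T : Type} {t : T → P} {M : P ⥤ ModuleCat.{u} k} (φ : ∀ τ, M.obj (t τ) →ₗ[k] k) :
    M ⟶ coind k t where
  app v := ModuleCat.ofHom
    (show M.obj v →ₗ[k] ((τ : T) → (v ⟶ t τ) → k) from
      LinearMap.pi fun τ => LinearMap.pi fun q => (φ τ).comp (M.map q).hom)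
  naturality v w p := by
    ext x
    apply coind_ext
    intro τ q
    change φ τ ((M.map q).hom ((M.map p).hom x)) = φ τ ((M.map (p ≫ q)).hom x)
    rw [M.map_comp]
    rfl

theorem coindEv_toCoind {T : Type} {t : T → P} {M : P ⥤ ModuleCat.{u} k}
    (φ : ∀ τ, M.obj (t τ) →ₗ[k] k) {v : P} (x : M.obj v) (τ : T) (q : v ⟶ t τ) :
    coindEv k t τ q (((toCoind φ).app v).hom x) = φ τ ((M.map q).hom x) := rfl

theorem coind_app {T : Type} {t : T → P} {M : P ⥤ ModuleCat.{u} k} (f : M ⟶ coind k t) {v : P}
    (x : M.obj v) (τ : T) (q : v ⟶ t τ) :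
    coindEv k t τ q ((f.app v).hom x) = coindEv k t τ (𝟙 _) ((f.app (t τ)).hom ((M.map q).hom x)) := by
  have h := congrArg (fun g => coindEv k t τ (𝟙 _) (ModuleCat.Hom.hom g x)) (f.naturality q)
  simp only [ModuleCat.hom_comp, LinearMap.comp_apply] at h
  rw [h, coindEv_map, Category.comp_id]

theorem coind_hom_ext {T : Type} {t : T → P} {M : P ⥤ ModuleCat.{u} k} {f g : M ⟶ coind k t}
    (h : ∀ τ (x : M.obj (t τ)), coindEv k t τ (𝟙 _) ((f.app (t τ)).hom x) =
      coindEv k t τ (𝟙 _) ((g.app (t τ)).hom x)) : f = g := by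
  ext v x
  apply coind_ext
  intro τ q
  rw [coind_app f, coind_app g]
  exact h _ _

instance instInjectiveCoind {T : Type} (t : T → P) : Injective (coind k t) := by
  constructor
  intro A B g f hf
  have hinj : ∀ v, Function.Injective (f.app v).hom := by
    intro v
    have : Mono (f.app v) := inferInstance
    exact (ModuleCat.mono_iff_injective _).1 this
  have hl : ∀ τ, ∃ l : B.obj (t τ) →ₗ[k] A.obj (t τ), l.comp (f.app (t τ)).hom = LinearMap.id :=
    fun τ => LinearMap.exists_leftInverse_of_injective _ (LinearMap.ker_eq_bot.2 (hinj _))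
  choose l hl using hl
  refine ⟨toCoind (fun τ => (coindEv k t τ (𝟙 _)).comp ((g.app (t τ)).hom.comp (l τ))), ?_⟩
  apply coind_hom_ext
  intro τ x
  simp only [NatTrans.comp_app, ModuleCat.hom_comp, LinearMap.comp_apply]
  rw [coindEv_toCoind]
  simp only [LinearMap.comp_apply]
  have h1 : (B.map (𝟙 (t τ))).hom ((f.app (t τ)).hom x) = (f.app (t τ)).hom x := by
    rw [B.map_id]; rfl
  have h2 := LinearMap.congr_fun (hl τ) x
  simp only [LinearMap.comp_apply, LinearMap.id_apply] at h2
  rw [h1, h2]

end Coind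

/-! ### Quotients of the constant representation -/

section Gen

variable {k : Type u} [Field k]

variable (k) in
/-- The constant representation `k = k = k = k`. -/
abbrev N : Rep k D4 := (Functor.const PD).obj (ModuleCat.of k k)

variable (k) in
/-- The indecomposable injective representation at the vertex `j`. -/
abbrev I (j : PD) : Rep k D4 := coind k (fun _ : Unit => j)

open PD

/-- `Y` is a quotient of the constant representation with `Y(s) ≠ 0`. -/
def Gen (Y : Rep k D4) : Prop :=
  ∃ π : N k ⟶ Y, (∀ v, Function.Surjective (π.app v).hom) ∧ (π.app s).hom (1 : k) ≠ 0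

theorem gen_N : Gen (N k) := ⟨𝟙 _, fun _ x => ⟨x, rfl⟩, (one_ne_zero : (1 : k) ≠ 0)⟩

theorem gen_I (j : PD) : Gen (I k j) := by
  classical
  refine ⟨toCoind (fun _ => LinearMap.id), fun v y => ?_, ?_⟩
  · by_cases h : Nonempty (v ⟶ j)
    · obtain ⟨q⟩ := h
      refine ⟨coindEv k (fun _ : Unit => j) () q y, ?_⟩
      apply coind_ext
      rintro ⟨⟩ q'
      rw [coindEv_toCoind, Subsingleton.elim q' q]
      rfl
    · refine ⟨(0 : k), ?_⟩
      apply coind_ext
      rintro ⟨⟩ q'
      exact absurd ⟨q'⟩ h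
  · intro h
    have h1 := congrArg (coindEv k (fun _ : Unit => j) () (path j)) h
    rw [coindEv_toCoind, map_zero] at h1
    exact one_ne_zero h1

theorem Gen.hom_ext {Y Z : Rep k D4} (hY : Gen Y) {f g : Y ⟶ Z}
    (h : ∀ y : Y.obj s, (f.app s).hom y = (g.app s).hom y) : f = g := by
  obtain ⟨π, hπ, -⟩ := hY
  ext v y
  obtain ⟨x, rfl⟩ := hπ v y
  have h1 : (π.app v).hom x = (Y.map (path v)).hom ((π.app s).hom x) := by
    have := congrArg (fun g => ModuleCat.Hom.hom g x) (π.naturality (path v))
    simp only [ModuleCat.hom_comp, LinearMap.comp_apply] at this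
    exact this
  rw [h1]
  have h2 : ∀ f : Y ⟶ Z, ∀ y, (f.app v).hom ((Y.map (path v)).hom y) =
      (Z.map (path v)).hom ((f.app s).hom y) := by
    intro f y
    exact congrArg (fun g => ModuleCat.Hom.hom g y) (f.naturality (path v))
  rw [h2, h2, h]

theorem Gen.exists_basis {Y : Rep k D4} (hY : Gen Y) :
    ∃ y₀ : Y.obj s, y₀ ≠ 0 ∧ ∀ y, ∃ c : k, y = c • y₀ := by
  obtain ⟨π, hπ, h0⟩ := hY
  refine ⟨(π.app s).hom (1 : k), h0, fun y => ?_⟩
  obtain ⟨x, rfl⟩ := hπ s y
  let c : k := x
  refine ⟨c, ?_⟩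
  rw [← map_smul]
  congr 1
  exact (mul_one c).symm

theorem Gen.eq_smul {Y Z : Rep k D4} (hY : Gen Y) (hZ : Gen Z) {f : Y ⟶ Z} (hf : f ≠ 0)
    (g : Y ⟶ Z) : ∃ c : k, g = c • f := by
  obtain ⟨y₀, hy₀, hy⟩ := hY.exists_basis
  obtain ⟨z₀, hz₀, hz⟩ := hZ.exists_basis
  obtain ⟨α, hα⟩ := hz ((f.app s).hom y₀)
  obtain ⟨β, hβ⟩ := hz ((g.app s).hom y₀)
  have hα0 : α ≠ 0 := by
    rintro rfl
    apply hf
    apply hY.hom_ext
    intro y
    obtain ⟨c, rfl⟩ := hy y
    rw [map_smul, hα, zero_smul, smul_zero]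
    rfl
  refine ⟨β / α, hY.hom_ext fun y => ?_⟩
  obtain ⟨c, rfl⟩ := hy y
  change _ = (β / α) • (f.app s).hom (c • y₀)
  rw [map_smul, map_smul, hα, hβ, smul_smul, smul_smul, smul_smul]
  congr 1
  field_simp

theorem Gen.app_ne_zero {Y Z : Rep k D4} (hY : Gen Y) {f : Y ⟶ Z} (hf : f ≠ 0) {y : Y.obj s}
    (hy : y ≠ 0) : (f.app s).hom y ≠ 0 := by
  intro h
  apply hf
  apply hY.hom_ext
  obtain ⟨y₀, hy₀, hb⟩ := hY.exists_basis
  obtain ⟨c, rfl⟩ := hb y
  have hc : c ≠ 0 := by rintro rfl; exact hy (zero_smul _ _)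
  intro y'
  obtain ⟨c', rfl⟩ := hb y'
  rw [map_smul] at h ⊢
  have : (f.app s).hom y₀ = 0 := by
    rcases smul_eq_zero.1 h with h | h
    · exact absurd h hc
    · exact h
  rw [this, smul_zero]
  rfl

theorem Gen.comp_ne_zero {Y Z W : Rep k D4} (hY : Gen Y) (hZ : Gen Z) {f : Y ⟶ Z} {g : Z ⟶ W}
    (hf : f ≠ 0) (hg : g ≠ 0) : f ≫ g ≠ 0 := by
  obtain ⟨y₀, hy₀, hb⟩ := hY.exists_basis
  intro h
  have h1 : (g.app s).hom ((f.app s).hom y₀) ≠ 0 := hZ.app_ne_zero hg (hY.app_ne_zero hf hy₀)
  apply h1
  have := congrArg (fun F : Y ⟶ W => (F.app s).hom y₀) h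
  simpa using this

theorem Gen.ne_zero {Y : Rep k D4} (hY : Gen Y) : (𝟙 Y : Y ⟶ Y) ≠ 0 := by
  obtain ⟨y₀, hy₀, hb⟩ := hY.exists_basis
  intro h
  apply hy₀
  have := congrArg (fun F : Y ⟶ Y => (F.app s).hom y₀) h
  simpa using this

theorem Gen.eq_zero_of_not_isIso {Y : Rep k D4} (hY : Gen Y) {f : Y ⟶ Y} (hf : ¬ IsIso f) :
    f = 0 := by
  by_contra h
  apply hf
  obtain ⟨c, hc⟩ := hY.eq_smul hY h (𝟙 Y)
  refine ⟨c • 𝟙 Y, ?_, ?_⟩
  · rw [Linear.comp_smul, Category.comp_id, ← hc]
  · rw [Linear.smul_comp, Category.id_comp, ← hc]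

theorem Gen.indecomposable {Y : Rep k D4} (hY : Gen Y) : Indecomposable Y := by
  refine ⟨fun h => hY.ne_zero ((IsZero.iff_id_eq_zero Y).1 h), ?_⟩
  intro A B e
  let f : Y ⟶ Y := e.hom ≫ biprod.fst ≫ biprod.inl ≫ e.inv
  obtain ⟨c, hc⟩ := hY.eq_smul hY hY.ne_zero f
  have hff : f ≫ f = f := by simp [f]
  have hcc : c * c = c := by
    by_contra hne
    have h1 : (c * c - c) • (𝟙 Y : Y ⟶ Y) = 0 := by
      rw [sub_smul, sub_eq_zero, ← smul_smul]
      rw [hc, Linear.comp_smul, Linear.smul_comp, Category.id_comp] at hff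
      exact hff
    rcases smul_eq_zero.1 h1 with h | h
    · exact hne (sub_eq_zero.1 h)
    · exact hY.ne_zero h
  have hc01 : c = 0 ∨ c = 1 := by
    have : c * (c - 1) = 0 := by rw [mul_sub, mul_one, hcc, sub_self]
    rcases mul_eq_zero.1 this with h | h
    · exact Or.inl h
    · exact Or.inr (sub_eq_zero.1 h)
  rcases hc01 with rfl | rfl
  · left
    rw [IsZero.iff_id_eq_zero]
    rw [zero_smul] at hc
    have : (𝟙 A : A ⟶ A) = (biprod.inl ≫ e.inv) ≫ f ≫ (e.hom ≫ biprod.fst) := by simp [f]
    rw [this, hc]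
    simp
  · right
    rw [IsZero.iff_id_eq_zero]
    rw [one_smul] at hc
    have : (𝟙 B : B ⟶ B) = (biprod.inr ≫ e.inv) ≫ 𝟙 Y ≫ (e.hom ≫ biprod.snd) := by simp
    rw [this, ← hc]
    simp [f]

theorem Gen.hom_eq_zero {Y Z : Rep k D4} (hY : Gen Y) (v : PD)
    (h1 : ∀ y : Y.obj v, y = 0) (h2 : Function.Injective (Z.map (path v)).hom) (f : Y ⟶ Z) :
    f = 0 := by
  apply hY.hom_ext
  intro y
  apply h2
  have := congrArg (fun g => ModuleCat.Hom.hom g y) (f.naturality (path v))
  simp only [ModuleCat.hom_comp, LinearMap.comp_apply] at this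
  rw [← this, h1 ((Y.map (path v)).hom y), map_zero]
  change (0 : Z.obj v) = (Z.map (path v)).hom (0 : Z.obj s)
  rw [map_zero]

/-! ### The coresolution `0 → N → J → K → 0` and vanishing of `Ext¹(-, N)` -/

/-- The two sinks. -/
def sink : Bool → PD
  | true => t₁
  | false => t₂

/-- The arrows `m → t₁`, `m → t₂`. -/
def arr : ∀ τ : Bool, m ⟶ sink τ
  | true => b
  | false => c

variable (k) in
/-- `J = I(t₁) ⊕ I(t₂)`. -/
abbrev J : Rep k D4 := coind k sink

variable (k) in
/-- The map `N → J`. -/
def NJ : N k ⟶ J k := toCoind (fun _ => LinearMap.id)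

variable (k) in
/-- The linear form on `J(m)`. -/
def JKform : (J k).obj m →ₗ[k] k :=
  coindEv k sink true (arr true) - coindEv k sink false (arr false)

variable (k) in
/-- The map `J → I(m)`. -/
def JK : J k ⟶ I k m := toCoind (fun _ => JKform k)

theorem coindEv_JK {v : PD} (q : v ⟶ m) (x : (J k).obj v) :
    coindEv k (fun _ : Unit => m) () q (((JK k).app v).hom x) =
      coindEv k sink true (q ≫ arr true) x - coindEv k sink false (q ≫ arr false) x := by
  rw [JK, coindEv_toCoind]
  rfl

theorem coindEv_NJ {v : PD} (τ : Bool) (q : v ⟶ sink τ) (x : (N k).obj v) :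
    coindEv k sink τ q (((NJ k).app v).hom x) = (x : k) := rfl

theorem NJ_JK : NJ k ≫ JK k = 0 := by
  apply coind_hom_ext
  rintro ⟨⟩ x
  have : coindEv k (fun _ : Unit => m) () (𝟙 _) (((JK k).app m).hom (((NJ k).app m).hom x)) = 0 := by
    rw [coindEv_JK, coindEv_NJ, coindEv_NJ]
    exact sub_self _
  exact this

variable (k) in
/-- The short complex `N → J → K`. -/
def SNJK : ShortComplex (Rep k D4) := ShortComplex.mk (NJ k) (JK k) NJ_JK

theorem vertex_cases (v : PD) : Nonempty (v ⟶ m) ∨ v = t₁ ∨ v = t₂ := by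
  cases v with
  | s => exact Or.inl ⟨a⟩
  | m => exact Or.inl ⟨𝟙 m⟩
  | t₁ => exact Or.inr (Or.inl rfl)
  | t₂ => exact Or.inr (Or.inr rfl)

theorem NJ_injective (v : PD) : Function.Injective ((NJ k).app v).hom := by
  intro x y h
  have key : ∀ (τ : Bool) (q : v ⟶ sink τ), x = y := by
    intro τ q
    have h1 := congrArg (coindEv k sink τ q) h
    rw [coindEv_NJ, coindEv_NJ] at h1
    exact h1
  rcases vertex_cases v with ⟨⟨q⟩⟩ | h | h
  · exact key true (q ≫ arr true)
  · exact key true (eqToHom h)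
  · exact key false (eqToHom h)

theorem JK_surjective (v : PD) : Function.Surjective ((JK k).app v).hom := by
  classical
  intro y
  by_cases h : Nonempty (v ⟶ m)
  · obtain ⟨q⟩ := h
    let x : (J k).obj v := (show (τ : Bool) → (v ⟶ sink τ) → k from fun τ _ =>
      if τ = true then coindEv k (fun _ : Unit => m) () q y else 0)
    refine ⟨x, ?_⟩
    apply coind_ext
    rintro ⟨⟩ q'
    rw [coindEv_JK, Subsingleton.elim q' q]
    change (if true = true then coindEv k (fun _ : Unit => m) () q y else (0 : k)) -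
      (if false = true then coindEv k (fun _ : Unit => m) () q y else (0 : k)) = _
    simp
  · refine ⟨0, ?_⟩
    apply coind_ext
    rintro ⟨⟩ q'
    exact absurd ⟨q'⟩ h

theorem JK_exact (v : PD) (x : (J k).obj v) (hx : ((JK k).app v).hom x = 0) :
    ∃ y, ((NJ k).app v).hom y = x := by
  have key : ∀ q : v ⟶ m, coindEv k sink true (q ≫ arr true) x =
      coindEv k sink false (q ≫ arr false) x := by
    intro q
    have h1 := congrArg (coindEv k (fun _ : Unit => m) () q) hx
    rw [coindEv_JK, map_zero, sub_eq_zero] at h1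
    exact h1
  rcases vertex_cases v with ⟨⟨q⟩⟩ | h | h
  · refine ⟨coindEv k sink true (q ≫ arr true) x, ?_⟩
    apply coind_ext
    intro τ q'
    rw [coindEv_NJ]
    cases τ with
    | true => rw [Subsingleton.elim q' (q ≫ arr true)]
    | false => rw [Subsingleton.elim q' (q ≫ arr false)]; exact key q
  · refine ⟨coindEv k sink true (eqToHom h) x, ?_⟩
    apply coind_ext
    intro τ q
    rw [coindEv_NJ]
    cases τ with
    | true => exact congrArg (fun q => coindEv k sink true q x) (Subsingleton.elim _ _)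
    | false => exact ((isEmpty_hom (v := v) (w := t₂) (by rw [h]; rfl)).false q).elim
  · refine ⟨coindEv k sink false (eqToHom h) x, ?_⟩
    apply coind_ext
    intro τ q
    rw [coindEv_NJ]
    cases τ with
    | false => exact congrArg (fun q => coindEv k sink false q x) (Subsingleton.elim _ _)
    | true => exact ((isEmpty_hom (v := v) (w := t₁) (by rw [h]; rfl)).false q).elim

/-- Exactness in a functor category can be checked pointwise. -/
theorem exact_of_pointwise (S : ShortComplex (Rep k D4))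
    (h : ∀ v : PD, (S.map ((evaluation PD (ModuleCat.{u} k)).obj v)).Exact) : S.Exact := by
  rw [ShortComplex.exact_iff_isZero_homology, Functor.isZero_iff]
  intro v
  exact IsZero.of_iso ((ShortComplex.exact_iff_isZero_homology _).1 (h v))
    (S.mapHomologyIso ((evaluation PD (ModuleCat.{u} k)).obj v)).symm

theorem SNJK_shortExact : (SNJK k).ShortExact := by
  have h1 : Mono (NJ k) := by
    rw [NatTrans.mono_iff_mono_app]
    intro v
    exact (ModuleCat.mono_iff_injective _).2 (NJ_injective v)
  have h2 : Epi (JK k) := by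
    rw [NatTrans.epi_iff_epi_app]
    intro v
    exact (ModuleCat.epi_iff_surjective _).2 (JK_surjective v)
  refine { exact := exact_of_pointwise _ fun v => ?_, mono_f := h1, epi_g := h2 }
  rw [ShortComplex.moduleCat_exact_iff]
  intro x hx
  exact JK_exact v x hx

theorem ext_eq_zero_of_lift {S : ShortComplex (Rep k D4)} (hS : S.ShortExact)
    (hI : Injective S.X₂) {Y : Rep k D4} (hlift : ∀ g : Y ⟶ S.X₃, ∃ h : Y ⟶ S.X₂, h ≫ S.g = g)
    (e : Ext Y S.X₁ 1) : e = 0 := by
  have h0 : e.comp (Ext.mk₀ S.f) (add_zero 1) = 0 :=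
    Ext.eq_zero_of_injective _
  obtain ⟨x₃, hx₃⟩ := Ext.covariant_sequence_exact₁ Y hS e h0 (zero_add 1)
  obtain ⟨g, rfl⟩ := (Ext.mk₀_bijective Y S.X₃).2 x₃
  obtain ⟨h, rfl⟩ := hlift g
  rw [← hx₃, ← Ext.mk₀_comp_mk₀, Ext.comp_assoc_of_second_deg_zero,
    ShortComplex.ShortExact.comp_extClass, Ext.comp_zero]

/-- `Ext¹(Y, N) = 0` if `Y(m) → Y(t₁) × Y(t₂)` is injective. -/
theorem ext_N_eq_zero {Y : Rep k D4}
    (hY : ∀ y : Y.obj m, (∀ τ, (Y.map (arr τ)).hom y = 0) → y = 0) (e : Ext Y (N k) 1) : e = 0 := by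
  refine ext_eq_zero_of_lift SNJK_shortExact (instInjectiveCoind sink) (fun g => ?_) e
  change ∃ h : Y ⟶ J k, h ≫ JK k = g
  let L : Y.obj m →ₗ[k] ((τ : Bool) → Y.obj (sink τ)) := LinearMap.pi fun τ => (Y.map (arr τ)).hom
  have hL : Function.Injective L := by
    rw [injective_iff_map_eq_zero]
    intro y hy
    exact hY y fun τ => congrFun hy τ
  obtain ⟨r, hr⟩ := LinearMap.exists_leftInverse_of_injective L (LinearMap.ker_eq_bot.2 hL)
  let φ : Y.obj m →ₗ[k] k := (coindEv k (fun _ : Unit => m) () (𝟙 m)).comp (g.app m).hom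
  have hφ : ∀ y, φ y = φ (r (L y)) := by
    intro y
    have := LinearMap.congr_fun hr y
    simp only [LinearMap.comp_apply, LinearMap.id_apply] at this
    rw [this]
  have hLy : ∀ y, L y = LinearMap.single k (fun τ => Y.obj (sink τ)) true ((Y.map (arr true)).hom y) +
      LinearMap.single k (fun τ => Y.obj (sink τ)) false ((Y.map (arr false)).hom y) := by
    intro y
    funext τ
    cases τ
    · simp [L]
    · simp [L]
  let ψ : ∀ τ, Y.obj (sink τ) →ₗ[k] k := fun τ =>
    (if τ = true then (1 : k) else -1) • ((φ.comp r).comp (LinearMap.single k (fun τ => Y.obj (sink τ)) τ))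
  refine ⟨toCoind ψ, ?_⟩
  apply coind_hom_ext
  rintro ⟨⟩ y
  have h1 : coindEv k (fun _ : Unit => m) () (𝟙 m) (((JK k).app m).hom (((toCoind ψ).app m).hom y)) =
      φ y := by
    rw [coindEv_JK, coindEv_toCoind, coindEv_toCoind, Category.id_comp, Category.id_comp, hφ y, hLy y,
      map_add, map_add]
    simp [ψ]
  exact h1

/-! ### The exceptional collection -/

theorem I_zero {j v : PD} (h : IsEmpty (v ⟶ j)) (y : (I k j).obj v) : y = 0 := by
  apply coind_ext
  rintro ⟨⟩ q
  exact (h.false q).elim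

theorem I_map_injective {j v : PD} (q : v ⟶ j) :
    Function.Injective ((I k j).map (path v)).hom := by
  intro x y h
  apply coind_ext
  rintro ⟨⟩ q'
  have h1 := congrArg (coindEv k (fun _ : Unit => j) () q) h
  rw [coindEv_map, coindEv_map] at h1
  rw [Subsingleton.elim q' (path v ≫ q)]
  exact h1

theorem hom_I_N {j v : PD} (h : IsEmpty (v ⟶ j)) (f : I k j ⟶ N k) : f = 0 :=
  (gen_I j).hom_eq_zero v (I_zero h) (fun _ _ h => h) f

theorem hom_I_I {j j' v : PD} (h : IsEmpty (v ⟶ j)) (q : v ⟶ j') (f : I k j ⟶ I k j') : f = 0 :=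
  (gen_I j).hom_eq_zero v (I_zero h) (I_map_injective q) f

theorem finite_I (j v : PD) : FiniteDimensional k ((I k j).obj v) := by
  change FiniteDimensional k ((τ : Unit) → (v ⟶ j) → k)
  infer_instance

theorem isExceptional_N : IsExceptional (N k) where
  finiteDim v := by
    change FiniteDimensional k k
    infer_instance
  indecomposable := gen_N.indecomposable
  ext_self := ext_N_eq_zero (fun y hy => hy true)

theorem isExceptional_I (j : PD) : IsExceptional (I k j) where
  finiteDim v := finite_I j v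
  indecomposable := (gen_I j).indecomposable
  ext_self _ := Ext.eq_zero_of_injective _

theorem ext_I_N {j : PD} (h : ∀ _q : m ⟶ j, ∃ τ, Nonempty (sink τ ⟶ j))
    (e : Ext (I k j) (N k) 1) : e = 0 := by
  apply ext_N_eq_zero
  intro y hy
  apply coind_ext
  rintro ⟨⟩ q
  obtain ⟨τ, ⟨q'⟩⟩ := h q
  rw [Subsingleton.elim q (arr τ ≫ q')]
  have h1 := congrArg (coindEv k (fun _ : Unit => j) () q') (hy τ)
  rw [coindEv_map, map_zero] at h1
  rw [map_zero]
  exact h1

variable (k) in
/-- The exceptional collection. -/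
def X : Fin 4 → Rep k D4 := ![N k, I k t₁, I k t₂, I k s]

theorem gen_X (i : Fin 4) : Gen (X k i) := by
  fin_cases i
  · exact gen_N
  · exact gen_I _
  · exact gen_I _
  · exact gen_I _

theorem hom_10 (f : X k 1 ⟶ X k 0) : f = 0 := hom_I_N (v := t₂) (isEmpty_hom rfl) f
theorem hom_20 (f : X k 2 ⟶ X k 0) : f = 0 := hom_I_N (v := t₁) (isEmpty_hom rfl) f
theorem hom_30 (f : X k 3 ⟶ X k 0) : f = 0 := hom_I_N (v := m) (isEmpty_hom rfl) f
theorem hom_21 (f : X k 2 ⟶ X k 1) : f = 0 := hom_I_I (v := t₁) (isEmpty_hom rfl) (𝟙 _) f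
theorem hom_12 (f : X k 1 ⟶ X k 2) : f = 0 := hom_I_I (v := t₂) (isEmpty_hom rfl) (𝟙 _) f
theorem hom_31 (f : X k 3 ⟶ X k 1) : f = 0 := hom_I_I (v := t₁) (isEmpty_hom rfl) (𝟙 _) f
theorem hom_32 (f : X k 3 ⟶ X k 2) : f = 0 := hom_I_I (v := t₂) (isEmpty_hom rfl) (𝟙 _) f

theorem ext_10 (e : Ext (X k 1) (X k 0) 1) : e = 0 := ext_I_N (fun _ => ⟨true, ⟨𝟙 _⟩⟩) e
theorem ext_20 (e : Ext (X k 2) (X k 0) 1) : e = 0 := ext_I_N (fun _ => ⟨false, ⟨𝟙 _⟩⟩) e
theorem ext_30 (e : Ext (X k 3) (X k 0) 1) : e = 0 :=
  ext_I_N (fun q => ((isEmpty_hom (v := m) (w := s) rfl).false q).elim) e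
theorem ext_to_I {Y : Rep k D4} {j : PD} (e : Ext Y (I k j) 1) : e = 0 :=
  Ext.eq_zero_of_injective _

theorem isExceptionalSequence_X : IsExceptionalSequence (X k) where
  exceptional i := by
    fin_cases i
    · exact isExceptional_N
    · exact isExceptional_I _
    · exact isExceptional_I _
    · exact isExceptional_I _
  hom_eq_zero i j hij := by
    fin_cases i <;> fin_cases j <;> first | exact absurd hij (by decide) | skip
    · exact hom_10
    · exact hom_20
    · exact hom_21
    · exact hom_30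
    · exact hom_31
    · exact hom_32
  ext_eq_zero i j hij := by
    fin_cases i <;> fin_cases j <;> first | exact absurd hij (by decide) | skip
    · exact ext_10
    · exact ext_20
    · exact fun e => ext_to_I (j := t₁) e
    · exact ext_30
    · exact fun e => ext_to_I (j := t₁) e
    · exact fun e => ext_to_I (j := t₂) e

theorem isExceptionalCollection_X : IsExceptionalCollection (X k) :=
  ⟨4, Equiv.refl _, isExceptionalSequence_X⟩

/-! ### The arrows and relations -/

theorem exists_arrow (A : ArrowChoice k (X k)) {i j : Fin 4}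
    (h2 : ∀ (l : Fin 4) (f : X k i ⟶ X k l) (g : X k l ⟶ X k j),
      ¬ IsIso f → ¬ IsIso g → f ≫ g = 0)
    {π : X k i ⟶ X k j} (hπ : π ≠ 0) (hπ' : ¬ IsIso π) :
    ∃ a ∈ A.homArrows i j, a ≠ 0 := by
  by_contra hcon
  push Not at hcon
  apply hπ
  have h3 : π ∈ Submodule.span k (A.homArrows i j) ⊔ radSqHom k (X k) i j :=
    A.homArrows_span i j (Submodule.subset_span hπ')
  have h4 : Submodule.span k (A.homArrows i j) ⊔ radSqHom k (X k) i j ≤ ⊥ := by
    refine sup_le ?_ ?_
    · rw [Submodule.span_le]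
      intro a ha
      exact hcon a ha
    · unfold radSqHom
      rw [Submodule.span_le]
      rintro _ ⟨l, f, g, hf, hg, rfl⟩
      exact h2 l f g hf hg
  exact (Submodule.mem_bot k).1 (h4 h3)

theorem not_isIso_of_hom_eq_zero {i j : Fin 4} (h : ∀ f : X k j ⟶ X k i, f = 0)
    (π : X k i ⟶ X k j) : ¬ IsIso π := by
  intro hπ
  apply (gen_X (k := k) i).ne_zero
  rw [← IsIso.hom_inv_id π, h (inv π), Limits.comp_zero]

/-- The map `N → I j`. -/
def π₀ (j : PD) : N k ⟶ I k j := toCoind (fun _ => LinearMap.id)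

theorem π₀_ne_zero (j : PD) : (π₀ j : N k ⟶ I k j) ≠ 0 := by
  intro h
  have h1 := congrArg (fun F : N k ⟶ I k j => coindEv k (fun _ : Unit => j) () (path j)
    ((F.app s).hom (1 : k))) h
  have h2 : (1 : k) = 0 := h1
  exact one_ne_zero h2

/-- The map `I j → I s`. -/
def π₁ (j : PD) : I k j ⟶ I k s := toCoind (fun _ => coindEv k (fun _ : Unit => j) () (path j))

theorem π₁_ne_zero (j : PD) : (π₁ j : I k j ⟶ I k s) ≠ 0 := by
  intro h
  have h1 := congrArg (fun F : I k j ⟶ I k s => coindEv k (fun _ : Unit => s) () (𝟙 s)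
    ((F.app s).hom (((π₀ j).app s).hom (1 : k)))) h
  have h2 : (1 : k) = 0 := h1
  exact one_ne_zero h2

theorem not_monomial (A : ArrowChoice k (X k)) : ¬ A.RelationsMonomial := by
  classical
  intro hA
  obtain ⟨a₁, ha₁, ha₁0⟩ := exists_arrow A (i := 0) (j := 1) (by
    intro l f g hf hg
    fin_cases l
    · rw [(gen_X 0).eq_zero_of_not_isIso hf, Limits.zero_comp]
    · rw [(gen_X 1).eq_zero_of_not_isIso hg, Limits.comp_zero]
    · rw [hom_21 g, Limits.comp_zero]
    · rw [hom_31 g, Limits.comp_zero]) (π := π₀ t₁) (π₀_ne_zero t₁)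
    (not_isIso_of_hom_eq_zero hom_10 _)
  obtain ⟨a₂, ha₂, ha₂0⟩ := exists_arrow A (i := 0) (j := 2) (by
    intro l f g hf hg
    fin_cases l
    · rw [(gen_X 0).eq_zero_of_not_isIso hf, Limits.zero_comp]
    · rw [hom_12 g, Limits.comp_zero]
    · rw [(gen_X 2).eq_zero_of_not_isIso hg, Limits.comp_zero]
    · rw [hom_32 g, Limits.comp_zero]) (π := π₀ t₂) (π₀_ne_zero t₂)
    (not_isIso_of_hom_eq_zero hom_20 _)
  obtain ⟨b₁, hb₁, hb₁0⟩ := exists_arrow A (i := 1) (j := 3) (by
    intro l f g hf hg
    fin_cases l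
    · rw [hom_10 f, Limits.zero_comp]
    · rw [(gen_X 1).eq_zero_of_not_isIso hf, Limits.zero_comp]
    · rw [hom_12 f, Limits.zero_comp]
    · rw [(gen_X 3).eq_zero_of_not_isIso hg, Limits.comp_zero]) (π := π₁ t₁) (π₁_ne_zero t₁)
    (not_isIso_of_hom_eq_zero hom_31 _)
  obtain ⟨b₂, hb₂, hb₂0⟩ := exists_arrow A (i := 2) (j := 3) (by
    intro l f g hf hg
    fin_cases l
    · rw [hom_20 f, Limits.zero_comp]
    · rw [hom_21 f, Limits.zero_comp]
    · rw [(gen_X 2).eq_zero_of_not_isIso hf, Limits.zero_comp]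
    · rw [(gen_X 3).eq_zero_of_not_isIso hg, Limits.comp_zero]) (π := π₁ t₂) (π₁_ne_zero t₂)
    (not_isIso_of_hom_eq_zero hom_32 _)
  have h₁ : a₁ ≫ b₁ ≠ 0 := (gen_X 0).comp_ne_zero (gen_X 1) ha₁0 hb₁0
  have h₂ : a₂ ≫ b₂ ≠ 0 := (gen_X 0).comp_ne_zero (gen_X 2) ha₂0 hb₂0
  obtain ⟨c, hc⟩ := (gen_X 0).eq_smul (gen_X 3) h₂ (a₁ ≫ b₁)
  let v0 : A.Vertex := (0 : Fin 4)
  let v1 : A.Vertex := (1 : Fin 4)
  let v2 : A.Vertex := (2 : Fin 4)
  let v3 : A.Vertex := (3 : Fin 4)
  let e₁ : v0 ⟶ v1 := Sum.inl ⟨a₁, ha₁⟩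
  let e₂ : v0 ⟶ v2 := Sum.inl ⟨a₂, ha₂⟩
  let f₁ : v1 ⟶ v3 := Sum.inl ⟨b₁, hb₁⟩
  let f₂ : v2 ⟶ v3 := Sum.inl ⟨b₂, hb₂⟩
  let p : Quiver.Path v0 v3 := (Quiver.Path.nil.cons e₁).cons f₁
  let q : Quiver.Path v0 v3 := (Quiver.Path.nil.cons e₂).cons f₂
  have hpq : q ≠ p := by
    intro h
    have := Quiver.Path.obj_eq_of_cons_eq_cons h
    have h' : (2 : Fin 4) = 1 := this
    exact absurd h' (by decide)
  have hp : A.value p = (a₁ ≫ b₁, 0) := by
    change ((𝟙 _ ≫ a₁) ≫ b₁, Ext.comp (Ext.comp 0 (Ext.mk₀ a₁) (add_zero 1)) (Ext.mk₀ b₁) (add_zero 1)) = _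
    rw [Category.id_comp, Ext.zero_comp, Ext.zero_comp]
  have hq : A.value q = (a₂ ≫ b₂, 0) := by
    change ((𝟙 _ ≫ a₂) ≫ b₂, Ext.comp (Ext.comp 0 (Ext.mk₀ a₂) (add_zero 1)) (Ext.mk₀ b₂) (add_zero 1)) = _
    rw [Category.id_comp, Ext.zero_comp, Ext.zero_comp]
  have hlc : A.lc v0 v3 (Finsupp.single p 1 - Finsupp.single q c) = 0 := by
    unfold ArrowChoice.lc
    rw [map_sub, Finsupp.linearCombination_single, Finsupp.linearCombination_single, hp, hq, one_smul,
      hc]
    ext
    · simp
    · simp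
  have h0 := A.value_eq_zero_of_monomial hA hlc (p := p) (by
    rw [Finsupp.sub_apply, Finsupp.single_eq_same, Finsupp.single_apply, if_neg hpq]
    simp)
  rw [hp] at h0
  exact h₁ (congrArg Prod.fst h0)

end Gen

/-- For every field `k` there are a finite acyclic quiver `V` (of type `D₄`) and an exceptional
collection `X` of four `k V`-modules such that, for every choice of the arrows of the Hom-Ext
quiver of `X` (and such choices exist), the ideal of relations is not generated by monomial
relations. -/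
theorem result (k : Type u) [Field k] :
    ∃ (V : Type) (_ : Quiver.{0} V), IsFiniteQuiver V ∧ IsAcyclicQuiver V ∧
      ∃ X : Fin 4 → Rep k V, IsExceptionalCollection X ∧ Nonempty (ArrowChoice k X) ∧
        ∀ A : ArrowChoice k X, ¬ A.RelationsMonomial :=
  ⟨D4, instQuiverD4, D4.isFinite, D4.isAcyclic, X k, isExceptionalCollection_X,
    ArrowChoice.nonempty_arrowChoice k (X k), not_monomial⟩

end Pool.Agent.Results.MP_2a1499_al.SquareCounterexample
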